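import Pool.Agent.H263.SL2
import Pool.Agent.H263.Nonzero
import Pool.Agent.H263.Transfer

/-!
# MP_67b4ec_an, Q1: an infinite discrete group with `rad(ℓ¹(G)'')² = {0}`

`H937R3.EllOne G` is the Banach algebra `ℓ¹(G)` of a discrete group `G` (Mathlib's
`lp (fun _ : G => ℂ) 1` with the convolution product), `H937R3.Bidual A` is the second dual `A''`
of a normed algebra `A` with the first Arens product, and `Ring.jacobson` is Mathlib's Jacobson
radical of a ring.  For a discrete group, `L¹(G) = ℓ¹(G)`.

Let `K` be an infinite field which is algebraic over the field with two elements, for instance the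
algebraic closure of that field, and let `G = SL₂(K)`, a countable, locally finite simple group.
Then the radical of `(ℓ¹(G)'', □)` is not zero and `Φ □ Ψ = 0` for all `Φ, Ψ` in it.

## Proof

We use the model `AM G` of `ℓ¹(G)''`: functionals on bounded functions.  Elements of the radical
are quasinilpotent.

* (Representations, `Rep`, `GNS`.)  Every unitary representation of `G` extends to `ℓ¹(G)''`
  (weakly), and kills the radical, because `x □ x*` is quasinilpotent and acts as the positive
  operator `ρ(x) ρ(x)*`.  Hence `x □ w = 0` if `x` lies in the radical and `w` is dominated by a left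
  invariant positive functional.
* (Hahn-Banach, `SubL`, `Dens`, `Square`.)  Let `G` be the union of the finite subgroups `E_n`.  If
  `y` is at positive distance from the closed space of all `w` which are killed from the left by the
  radical, then a suitable `z = y - w` with this property almost attains its norm on functions which
  live on sets of arbitrarily small upper density along the cosets of the `E_n`.
* (Generic translates, `Rank`, `Block`, `Recur`.)  If the conjugation operators of `G` are mixing
  then generic translates of a thin set are almost disjoint, for a mass distribution given in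
  advance: the points are ranked such that each one has few conjugate neighbours of a larger rank,
  and a point is given to the translate for which its rank is largest.  Finitely many translates are
  chosen one after the other with a second moment bound.  Weak-* limits give an element `c` such that
  for all bounded `F` there is a bounded `f` with `(c □ z) · f` close to `‖z‖ F`.
* So `‖x □ (c □ y)‖ ≥ t ‖x‖` for all `x` in the radical, with some `t > 0`.  As `c □ y` is in the
  radical, this contradicts its quasinilpotency, unless the radical is zero.
* (`SLCount`, `SLMix`, `SL2`.)  The mixing property for `SL₂` over finite fields of characteristic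
  two follows from a second moment computation: centralisers have at most `2 q` elements, and the
  conditions `tr c = tr (c g) = τ` with `g ≠ 1` have at most `2 q` solutions.
-/

namespace Pool.Agent.Results.MP_67b4ec_an.DiscreteSquareZero

open H937R3 Pool.Agent.H263

/-- Let `K` be an infinite field algebraic over the field with two elements.  The group
`G = SL₂(K)` is infinite, the Jacobson radical of `ℓ¹(G)''` (first Arens product) is not zero,
and the product of any two elements of the radical is zero. -/
theorem result (K : Type*) [Field K] [Algebra (ZMod 2) K] [Algebra.IsAlgebraic (ZMod 2) K]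
    [Infinite K] [DecidableEq (Matrix.SpecialLinearGroup (Fin 2) K)] :
    Infinite (Matrix.SpecialLinearGroup (Fin 2) K) ∧
      Ring.jacobson (Bidual (EllOne (Matrix.SpecialLinearGroup (Fin 2) K))) ≠ ⊥ ∧
      ∀ Φ ∈ Ring.jacobson (Bidual (EllOne (Matrix.SpecialLinearGroup (Fin 2) K))),
        ∀ Ψ ∈ Ring.jacobson (Bidual (EllOne (Matrix.SpecialLinearGroup (Fin 2) K))),
          Φ * Ψ = 0 := by
  haveI : CharP K 2 := charP_of_injective_algebraMap (algebraMap (ZMod 2) K).injective 2
  letI : TopologicalSpace (Matrix.SpecialLinearGroup (Fin 2) K) := ⊥
  haveI : DiscreteTopology (Matrix.SpecialLinearGroup (Fin 2) K) := ⟨rfl⟩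
  obtain ⟨F, hF, hmono, hex⟩ := SLCount.exists_subfields (K := K)
  have hinf : Infinite (Matrix.SpecialLinearGroup (Fin 2) K) := by
    refine Infinite.of_injective (fun t : K => SLCount.toSL 1 t 0) fun t t' h => ?_
    have h' : SLCount.toSL 1 t 0 = SLCount.toSL 1 t' 0 := h
    rw [← SLCount.toSL01 (one_ne_zero (α := K)) t 0, h', SLCount.toSL01 (one_ne_zero (α := K))]
  refine ⟨hinf, fun hbot => ?_, transfer_sq fun Φ hΦ Ψ hΨ =>
    sq_zero_of_mix (SLCount.mix_SL F hF hmono hex) hΦ hΨ⟩
  obtain ⟨z, hz, hz0⟩ := exists_rad_ne_zero (SLCount.exhSL F hF hmono hex)
  have h1 := mem_jacobson_equiv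
    (equivAM (G := Matrix.SpecialLinearGroup (Fin 2) K)).symm hz
  rw [hbot, Ideal.mem_bot] at h1
  exact hz0 ((map_eq_zero_iff _ (equivAM (G := Matrix.SpecialLinearGroup (Fin 2) K)).symm.injective).1
    h1)

end Pool.Agent.Results.MP_67b4ec_an.DiscreteSquareZero
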